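import Pool.Agent.W488.IX.Stm
import Pool.Agent.W581.IW.Qw

/-! Project IX: removing the regularisation. -/

set_option autoImplicit false

namespace Pool.Agent.W398.IX.Qwx

open Pool.Agent.W488.IW Pool.Agent.W488.IX MeasureTheory Set Filter Topology
open Pool.Agent.W581.IW.Qw (cont_prim cont_gd cont_XX)

section
variable {α C : ℝ} {κ : ℝ → ℝ} (hκ : Kap α C κ)
include hκ

lemma int_div (a b : ℝ) : IntervalIntegrable (fun s => κ s / s) volume a b := by
  have h1 : IntervalIntegrable (fun s : ℝ => C * s ^ (α - 1)) volume a b :=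
    (intervalIntegral.intervalIntegrable_rpow' (by linarith [hκ.a0])).const_mul C
  refine h1.mono_fun ?_ ?_
  · exact (hκ.cont.measurable.div measurable_id).aestronglyMeasurable
  · refine Eventually.of_forall fun s => ?_
    rcases le_or_gt s 0 with hs | hs
    · simp only [hκ.neg s hs, zero_div, norm_zero]
      exact norm_nonneg _
    · simp only [Real.norm_eq_abs]
      rw [abs_of_nonneg (div_nonneg (hκ.nn s) hs.le)]
      refine le_trans ?_ (le_abs_self _)
      rw [div_le_iff₀ hs, mul_assoc, ← Real.rpow_add_one hs.ne']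
      have := hκ.up s hs.le
      simpa using this

lemma cont_om1 : Continuous (om1 κ) := cont_prim κ hκ.cont

lemma cont_om : Continuous (om κ) := cont_prim (om1 κ) (cont_om1 hκ)

lemma cont_hh1 : Continuous (hh1 κ) :=
  intervalIntegral.continuous_primitive (fun a b => int_div hκ a b) 0

lemma cont_hh : Continuous (hh κ) := cont_prim (hh1 κ) (cont_hh1 hκ)

lemma cont_f2 : Continuous (f2 κ) := by
  apply cont_prim
  have := cont_hh1 hκ
  fun_prop

lemma om1_eq (t : ℝ) (ht : 0 ≤ t) : om1 κ t = t * hh1 κ t - hh κ t := by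
  have h := intervalIntegral.integral_eq_sub_of_hasDerivAt_of_le (f := fun t => t * hh1 κ t - hh κ t)
    (f' := κ) ht (by
      have := cont_hh1 hκ
      have := cont_hh hκ
      fun_prop) (by
      intro s hs
      have h1 : HasDerivAt (hh1 κ) (κ s / s) s := by
        apply intervalIntegral.integral_hasDerivAt_right (int_div hκ 0 s)
        · exact (hκ.cont.measurable.div measurable_id).stronglyMeasurable.stronglyMeasurableAtFilter
        · exact hκ.cont.continuousAt.div continuousAt_id hs.1.ne'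
      have h2 : HasDerivAt (hh κ) (hh1 κ s) s := by
        have hc := cont_hh1 hκ
        exact intervalIntegral.integral_hasDerivAt_right (hc.intervalIntegrable 0 s)
          hc.stronglyMeasurable.stronglyMeasurableAtFilter hc.continuousAt
      have h3 := ((hasDerivAt_id s).mul h1).sub h2
      refine h3.congr_deriv ?_
      have : s ≠ 0 := hs.1.ne'
      simp only [id]
      field_simp
      ring) (hκ.cont.intervalIntegrable 0 t)
  have h0 : hh κ 0 = 0 := by simp [hh]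
  unfold om1
  rw [h, h0]
  simp

lemma diag (r : ℝ) (hr : 0 ≤ r) : f2 κ r - g2 κ r = om κ (2 * r) / 2 := by
  have c1 := cont_hh1 hκ
  have c2 := cont_hh hκ
  unfold f2 g2
  rw [← intervalIntegral.integral_sub (Continuous.intervalIntegrable (by fun_prop) _ _)
    (Continuous.intervalIntegrable (by fun_prop) _ _)]
  have e : ∫ s in (0 : ℝ)..r, (s * hh1 κ (2 * s) - (hh κ (2 * s) - s * hh1 κ (2 * s))) =
      ∫ s in (0 : ℝ)..r, om1 κ (2 * s) := by
    apply intervalIntegral.integral_congr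
    intro s hs
    rw [uIcc_of_le hr] at hs
    simp only
    rw [om1_eq hκ (2 * s) (by linarith [hs.1])]
    ring
  rw [e, intervalIntegral.integral_comp_mul_left (om1 κ) (by norm_num : (2 : ℝ) ≠ 0), mul_zero]
  unfold om
  rw [smul_eq_mul]
  ring

/-- a continuous version of `fX` -/
lemma fX_eq (x y : ℝ) (hy : 0 ≤ y) :
    fX κ x y = f2 κ (max x y) - f2 κ y + fI κ (min x y) y := by
  unfold fX
  split_ifs with h
  · rw [max_eq_left h.le, min_eq_right h.le]
    have := diag hκ y hy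
    unfold fI
    rw [sub_self, zero_mul, zero_add, ← two_mul]
    linarith
  · have h' : x ≤ y := not_lt.1 h
    rw [max_eq_right h', min_eq_left h', sub_self, zero_add]

end

noncomputable def Ph (κ : ℝ → ℝ) (x y : ℝ) : ℝ := f2 κ (max x y) - f2 κ y + fI κ (min x y) y

lemma cont_Ph {α C : ℝ} {κ : ℝ → ℝ} (hκ : Kap α C κ) :
    Continuous fun q : ℝ × ℝ => Ph κ q.1 q.2 := by
  have h1 := cont_hh hκ
  have h2 := cont_om hκ
  have h3 := cont_f2 hκ
  unfold Ph fI
  fun_prop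

/-- a continuous version of `wX` -/
noncomputable def wP (κ : ℝ → ℝ) (ε ϑ : ℝ) (F : ℂ × ℂ) : ℝ :=
  Ph κ (XX ε F.1) (XX ε F.2) - Ph κ ε ε + ϑ / 2 * (‖F.1‖ ^ 2 + ‖F.2‖ ^ 2)

lemma wX_eq {α C : ℝ} {κ : ℝ → ℝ} (hκ : Kap α C κ) (ε ϑ : ℝ) (hε : 0 ≤ ε) (F : ℂ × ℂ) :
    wX κ ε ϑ F = wP κ ε ϑ F := by
  have h1 := fX_eq hκ (XX ε F.1) (XX ε F.2) (Real.sqrt_nonneg _)
  have h2 := fX_eq hκ ε ε hε
  unfold wX wP
  rw [h1, h2]
  rfl

lemma cont_Phi {α C : ℝ} {κ : ℝ → ℝ} (hκ : Kap α C κ) (G : V → ℂ × ℂ) (hG : Continuous G) :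
    Continuous fun q : ℝ × ℝ × V => wP κ q.1 q.2.1 (G q.2.2) := by
  have hf := cont_Ph hκ
  have c1 : Continuous fun q : ℝ × ℝ × V => G q.2.2 := hG.comp (by fun_prop)
  have c2 : Continuous fun q : ℝ × ℝ × V => XX q.1 (G q.2.2).1 :=
    cont_XX.comp (continuous_fst.prodMk (continuous_fst.comp c1))
  have c3 : Continuous fun q : ℝ × ℝ × V => XX q.1 (G q.2.2).2 :=
    cont_XX.comp (continuous_fst.prodMk (continuous_snd.comp c1))
  have c4 : Continuous fun q : ℝ × ℝ × V =>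
      Ph κ (XX q.1 (G q.2.2).1) (XX q.1 (G q.2.2).2) :=
    hf.comp (c2.prodMk c3)
  have c4' : Continuous fun q : ℝ × ℝ × V => Ph κ q.1 q.1 :=
    hf.comp (continuous_fst.prodMk continuous_fst)
  have c5 : Continuous fun q : ℝ × ℝ × V => q.2.1 / 2 * (‖(G q.2.2).1‖ ^ 2 + ‖(G q.2.2).2‖ ^ 2) :=
    (Continuous.div_const (by fun_prop) 2).mul
      (((continuous_fst.comp c1).norm.pow 2).add ((continuous_snd.comp c1).norm.pow 2))
  exact (c4.sub c4').add c5

lemma lim_lemma {α C : ℝ} {κ : ℝ → ℝ} (hκ : Kap α C κ) (G : V → ℂ × ℂ) (hG : Continuous G)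
    (ε ϑ : ℕ → ℝ) (hε : ∀ n, 0 ≤ ε n ∧ ε n ≤ 1) (hϑ : ∀ n, 0 ≤ ϑ n ∧ ϑ n ≤ 1)
    (hεlim : Tendsto ε atTop (𝓝 0)) (hϑlim : Tendsto ϑ atTop (𝓝 0)) :
    Tendsto (fun n : ℕ => ∫ x in Icc (0 : V) 1, wX κ (ε n) (ϑ n) (G x)) atTop
      (𝓝 (∫ x in Icc (0 : V) 1, fX κ ‖(G x).1‖ ‖(G x).2‖)) := by
  have hcont := cont_Phi hκ G hG
  have e : ∀ n x, wX κ (ε n) (ϑ n) (G x) = wP κ (ε n) (ϑ n) (G x) :=
    fun n x => wX_eq hκ _ _ (hε n).1 _
  simp only [e]
  obtain ⟨C, hC⟩ := ((isCompact_Icc (a := (0 : ℝ)) (b := 1)).prod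
    ((isCompact_Icc (a := (0 : ℝ)) (b := 1)).prod (isCompact_Icc (a := (0 : V)) (b := 1))))
    |>.exists_bound_of_continuousOn hcont.continuousOn
  refine tendsto_integral_of_dominated_convergence (fun _ => C) ?_ ?_ ?_ ?_
  · intro n
    have h5 : Continuous fun x : V => ((ε n, (ϑ n, x)) : ℝ × ℝ × V) := by fun_prop
    exact (hcont.comp h5).aestronglyMeasurable
  · exact integrableOn_const (hs := isCompact_Icc.measure_lt_top.ne)
  · intro n
    refine (ae_restrict_iff' measurableSet_Icc).2 (Eventually.of_forall fun x hx => ?_)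
    have := hC (ε n, (ϑ n, x)) (Set.mk_mem_prod (hε n) (Set.mk_mem_prod (hϑ n) hx))
    exact this
  · refine Eventually.of_forall fun x => ?_
    have h6 : Tendsto (fun n : ℕ => ((ε n, (ϑ n, x)) : ℝ × ℝ × V)) atTop
        (𝓝 (0, (0, x))) :=
      hεlim.prodMk_nhds (hϑlim.prodMk_nhds tendsto_const_nhds)
    have h7 := (hcont.tendsto (0, (0, x))).comp h6
    have h8 : wP κ 0 0 (G x) = fX κ ‖(G x).1‖ ‖(G x).2‖ := by
      have h9 : Ph κ 0 0 = 0 := by
        simp [Ph, fI, om]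
      have h10 : ∀ a : ℂ, XX 0 a = ‖a‖ := by
        intro a
        unfold XX
        rw [zero_pow (by norm_num), add_zero, Real.sqrt_sq (norm_nonneg _)]
      unfold wP
      rw [h9, h10, h10, fX_eq hκ _ _ (norm_nonneg _)]
      unfold Ph
      ring
    rw [← h8]
    exact h7

theorem main (h : S_QTX) : S_QWX := by
  intro α C κ hκ N c
  have hpos : ∀ n : ℕ, (0 : ℝ) < 1 / ((n : ℝ) + 1) := fun n => Nat.one_div_pos_of_nat
  choose ε hε using fun n : ℕ => h α C κ hκ (1 / ((n : ℝ) + 1)) (hpos n) (1 / ((n : ℝ) + 1)) (hpos n)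
  have hle1 : ∀ n : ℕ, 1 / ((n : ℝ) + 1) ≤ 1 := fun n => by
    rw [div_le_one (by positivity)]
    have : (0 : ℝ) ≤ n := Nat.cast_nonneg n
    linarith
  have hlim0 : Tendsto (fun n : ℕ => 1 / ((n : ℝ) + 1)) atTop (𝓝 0) :=
    tendsto_one_div_add_atTop_nhds_zero_nat
  have hεlim : Tendsto ε atTop (𝓝 0) :=
    squeeze_zero (fun n => (hε n).1.le) (fun n => (hε n).2.1.le) hlim0
  have key := lim_lemma hκ (gd (box N) c) (cont_gd (box N) c) ε (fun n => 1 / ((n : ℝ) + 1))
    (fun n => ⟨(hε n).1.le, (hε n).2.1.le.trans (hle1 n)⟩) (fun n => ⟨(hpos n).le, hle1 n⟩)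
    hεlim hlim0
  exact ge_of_tendsto key (Eventually.of_forall fun n => (hε n).2.2 N c)

end Pool.Agent.W398.IX.Qwx
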